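import Pool.Agent.Y998.LQ.Defs4

/-!
# Gaps between the returns of a permutation to a set (project LR)
-/

set_option autoImplicit false

namespace Pool.Agent.Y930.LR

open Finset Equiv

/-- the points of `B` in the cycle of `v` without a return in the next `K` steps -/
theorem gap {V : Type} [Fintype V] [DecidableEq V] (g : Perm V) (v : V) (B : Finset V) (K : ℕ) :
    (K + 1) * Nat.card {z : V // z ∈ B ∧ g.SameCycle v z ∧
      ∀ m, 1 ≤ m → m ≤ K → (g ^ m) z ∉ B} ≤ Nat.card {w : V // g.SameCycle v w} := by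
  let S := {z : V // z ∈ B ∧ g.SameCycle v z ∧ ∀ m, 1 ≤ m → m ≤ K → (g ^ m) z ∉ B}
  let φ : Fin (K + 1) × S → {w : V // g.SameCycle v w} := fun q =>
    ⟨(g ^ (q.1 : ℕ)) q.2.1, by
      have h := q.2.2.2.1
      obtain ⟨i, hi⟩ := h
      refine ⟨(q.1 : ℕ) + i, ?_⟩
      rw [zpow_add, Perm.mul_apply, hi, zpow_natCast]⟩
  have key : ∀ (a b : ℕ) (z z' : V), a ≤ b → b ≤ K → z ∈ B →
      (∀ m, 1 ≤ m → m ≤ K → (g ^ m) z' ∉ B) → (g ^ a) z = (g ^ b) z' → a = b ∧ z = z' := by
    intro a b z z' hab hbK hz hz' h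
    obtain ⟨c, rfl⟩ := Nat.exists_eq_add_of_le hab
    rw [pow_add, Perm.mul_apply] at h
    have h1 : z = (g ^ c) z' := (g ^ a).injective h
    rcases Nat.eq_zero_or_pos c with h0 | h0
    · subst h0
      exact ⟨rfl, by simpa using h1⟩
    · exfalso
      apply hz' c h0 (by omega)
      rw [← h1]
      exact hz
  have hinj : Function.Injective φ := by
    rintro ⟨a, z⟩ ⟨b, z'⟩ h
    have h1 : (g ^ (a : ℕ)) z.1 = (g ^ (b : ℕ)) z'.1 := congrArg Subtype.val h
    have ha := a.2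
    have hb := b.2
    rcases le_total (a : ℕ) b with hab | hab
    · obtain ⟨h2, h3⟩ := key a b z.1 z'.1 hab (by omega) z.2.1 z'.2.2.2 h1
      exact Prod.ext (Fin.ext h2) (Subtype.ext h3)
    · obtain ⟨h2, h3⟩ := key b a z'.1 z.1 hab (by omega) z'.2.1 z.2.2.2 h1.symm
      exact Prod.ext (Fin.ext h2.symm) (Subtype.ext h3.symm)
  have h1 := Nat.card_le_card_of_injective φ hinj
  rwa [Nat.card_prod, Nat.card_eq_fintype_card, Fintype.card_fin] at h1

theorem t_GAP : Pool.Agent.Y998.LQ.S_GAP := by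
  intro V _ _ g v B K
  exact gap g v B K

end Pool.Agent.Y930.LR
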